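import Mathlib

namespace Pool.Agent.H107.DW

open Finset MvPolynomial

/-- The skew set-pair inequality (Frankl, Kalai, Lovasz), proved with polynomials. -/
theorem skew_pairs {α ι L : Type*} [DecidableEq α] [Fintype ι] [LinearOrder L]
    (κ : ι → L) (A B : ι → Finset α) (t : α → ℝ) (a b : ℕ)
    (ht : ∀ i j, ∀ x ∈ A i, ∀ y ∈ B j, t x = t y → x = y)
    (hA : ∀ i, (A i).card ≤ a) (hB : ∀ i, (B i).card = b)
    (hd : ∀ i, Disjoint (A i) (B i))
    (hs : ∀ i j, i ≠ j → κ i ≤ κ j → ¬ Disjoint (A i) (B j)) :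
    Fintype.card ι ≤ (a + b).choose b := by
  classical
  -- coefficient vectors
  let Q : ι → Polynomial ℝ := fun j => ∏ y ∈ B j, (Polynomial.X - Polynomial.C (t y))
  have hQdeg : ∀ j, (Q j).natDegree = b := by
    intro j
    simp only [Q]
    rw [Polynomial.natDegree_prod_of_monic _ _ (fun y _ => Polynomial.monic_X_sub_C _)]
    simp [hB j]
  have hQmonic : ∀ j, (Q j).Monic := fun j =>
    Polynomial.monic_prod_of_monic _ _ (fun y _ => Polynomial.monic_X_sub_C _)
  let w : ι → (Fin (b + 1) → ℝ) := fun j r => (Q j).coeff r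
  have hwlast : ∀ j, w j (Fin.last b) = 1 := by
    intro j
    have := hQmonic j
    rw [Polynomial.Monic, Polynomial.leadingCoeff, hQdeg j] at this
    simpa [w] using this
  -- linear forms
  let ℓ : ℝ → MvPolynomial (Fin (b + 1)) ℝ := fun s => ∑ r : Fin (b + 1), C (s ^ (r : ℕ)) * X r
  have hℓ : ∀ s j, eval (w j) (ℓ s) = (Q j).eval s := by
    intro s j
    simp only [ℓ, map_sum, map_mul, eval_C, eval_X]
    rw [Polynomial.eval_eq_sum_range' (n := b + 1) (by rw [hQdeg j]; omega), Finset.sum_range]
    exact Finset.sum_congr rfl (fun r _ => by simp [w, mul_comm])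
  have hℓhom : ∀ s, (ℓ s).IsHomogeneous 1 := by
    intro s
    apply IsHomogeneous.sum
    intro r _
    simpa using (isHomogeneous_C (Fin (b+1)) (s ^ (r : ℕ))).mul (isHomogeneous_X ℝ r)
  let f : ι → MvPolynomial (Fin (b + 1)) ℝ := fun i =>
    (X (Fin.last b)) ^ (a - (A i).card) * ∏ x ∈ A i, ℓ (t x)
  have hfhom : ∀ i, (f i).IsHomogeneous a := by
    intro i
    have h1 := (isHomogeneous_X_pow (R := ℝ) (Fin.last b) (a - (A i).card)).mul
      (IsHomogeneous.prod (A i) (fun x => ℓ (t x)) (fun _ => 1) (fun x _ => hℓhom (t x)))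
    have h2 : a - (A i).card + ∑ _x ∈ A i, 1 = a := by
      simp
      exact Nat.sub_add_cancel (hA i)
    rw [h2] at h1
    exact h1
  have hfeval : ∀ i j, eval (w j) (f i) = ∏ x ∈ A i, ∏ y ∈ B j, (t x - t y) := by
    intro i j
    simp only [f, map_mul, map_pow, eval_X, map_prod, hwlast, one_pow, one_mul, hℓ]
    refine Finset.prod_congr rfl (fun x _ => ?_)
    simp [Q, Polynomial.eval_prod]
  have hfne : ∀ i, eval (w i) (f i) ≠ 0 := by
    intro i
    rw [hfeval]
    refine Finset.prod_ne_zero_iff.mpr (fun x hx => Finset.prod_ne_zero_iff.mpr (fun y hy => ?_))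
    intro h
    have hxy := ht i i x hx y hy (sub_eq_zero.mp h)
    subst hxy
    exact Finset.disjoint_left.mp (hd i) hx hy
  have hf0 : ∀ i j, i ≠ j → κ i ≤ κ j → eval (w j) (f i) = 0 := by
    intro i j hij hκ
    rw [hfeval]
    obtain ⟨x, hx, hy⟩ := Finset.not_disjoint_iff.mp (hs i j hij hκ)
    exact Finset.prod_eq_zero hx (Finset.prod_eq_zero hy (sub_self _))
  -- vectors of coefficients
  let I : Finset (Fin (b + 1) →₀ ℕ) := (Finset.univ : Finset (Fin (b+1))).finsuppAntidiag a
  have hIcard : I.card = (a + b).choose b := by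
    simp only [I]
    rw [Finset.card_finsuppAntidiag_nat_eq_choose]
    simp only [Finset.card_univ, Fintype.card_fin]
    rw [show b + 1 + a - 1 = a + b by omega, ← Nat.choose_symm_add]
  let v : ι → (I → ℝ) := fun i m => coeff (m : Fin (b+1) →₀ ℕ) (f i)
  have heval : ∀ i j, eval (w j) (f i) = ∑ m : I, v i m * ∏ r, w j r ^ ((m : Fin (b+1) →₀ ℕ) r) := by
    intro i j
    rw [eval_eq']
    have hsub : (f i).support ⊆ I := by
      intro m hm
      have := (hfhom i) (mem_support_iff.mp hm)
      simp only [I, Finset.mem_finsuppAntidiag]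
      refine ⟨?_, Finset.subset_univ _⟩
      have h3 : Finsupp.degree m = a := by
        rw [Finsupp.degree_eq_weight_one]
        exact this
      rw [← h3, Finsupp.degree_eq_sum]
    rw [Finset.sum_subset hsub]
    · rw [← Finset.sum_coe_sort I]
    · intro m _ hm
      rw [notMem_support_iff.mp hm, zero_mul]
  have hlin : LinearIndependent ℝ v := by
    rw [Fintype.linearIndependent_iff]
    intro g hg
    by_contra hne
    push Not at hne
    obtain ⟨i0, hi0, hmax⟩ := Finset.exists_max_image (Finset.univ.filter (fun i => g i ≠ 0)) κ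
      (by obtain ⟨i, hi⟩ := hne; exact ⟨i, by simp [hi]⟩)
    have hi0' : g i0 ≠ 0 := by simpa using hi0
    have h0 : ∑ i, g i * eval (w i0) (f i) = 0 := by
      have : ∀ i, g i * eval (w i0) (f i) =
          ∑ m : I, (g i * v i m) * ∏ r, w i0 r ^ ((m : Fin (b+1) →₀ ℕ) r) := by
        intro i
        rw [heval, Finset.mul_sum]
        exact Finset.sum_congr rfl (fun m _ => by ring)
      simp only [this]
      rw [Finset.sum_comm]
      refine Finset.sum_eq_zero (fun m _ => ?_)
      rw [← Finset.sum_mul]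
      have := congrFun hg m
      simp only [Finset.sum_apply, Pi.smul_apply, smul_eq_mul, Pi.zero_apply] at this
      rw [this, zero_mul]
    rw [Finset.sum_eq_single i0] at h0
    · exact (mul_ne_zero hi0' (hfne i0)) h0
    · intro i _ hi
      by_cases hgi : g i = 0
      · rw [hgi, zero_mul]
      · rw [hf0 i i0 hi (hmax i (by simp [hgi])), mul_zero]
    · intro h
      exact absurd (Finset.mem_univ _) h
  have := hlin.fintype_card_le_finrank
  rw [Module.finrank_fintype_fun_eq_card] at this
  simpa [hIcard] using this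

end Pool.Agent.H107.DW
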