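import Mathlib
import Pool.Agent.H107.DWSkew

namespace Pool.Agent.H107.DW

open Finset

/-- No `d+1` points of `P` lie on a common affine hyperplane: any `d+1` of them are affinely
independent. -/
def GeneralPosition {d : ℕ} (P : Finset (EuclideanSpace ℝ (Fin d))) : Prop :=
  ∀ S ⊆ P, S.card = d + 1 → AffineIndependent ℝ (fun x : S => (x : EuclideanSpace ℝ (Fin d)))

theorem exists_bary {d : ℕ} (S : Finset (EuclideanSpace ℝ (Fin d))) (hcard : S.card = d + 1)
    (hind : AffineIndependent ℝ (fun x : S => (x : EuclideanSpace ℝ (Fin d)))) :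
    ∃ c : EuclideanSpace ℝ (Fin d) → (EuclideanSpace ℝ (Fin d) →ᵃ[ℝ] ℝ),
      (∀ p ∈ S, c p p = 1) ∧ (∀ p ∈ S, ∀ q ∈ S, p ≠ q → c p q = 0) ∧
      (∀ x, ∑ p ∈ S, c p x = 1) ∧ (∀ x, ∑ p ∈ S, c p x • p = x) ∧
      (∀ x, x ∈ interior (convexHull ℝ (S : Set (EuclideanSpace ℝ (Fin d)))) ↔
        ∀ p ∈ S, 0 < c p x) := by
  classical
  have htot : affineSpan ℝ (Set.range (fun x : S => (x : EuclideanSpace ℝ (Fin d)))) = ⊤ := by
    rw [hind.affineSpan_eq_top_iff_card_eq_finrank_add_one]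
    simp [hcard]
  obtain ⟨b, hb⟩ : ∃ b : AffineBasis S ℝ (EuclideanSpace ℝ (Fin d)),
      ∀ x : S, b x = (x : EuclideanSpace ℝ (Fin d)) := ⟨⟨fun x => x, hind, htot⟩, fun x => rfl⟩
  refine ⟨fun p => if h : p ∈ S then b.coord ⟨p, h⟩ else 0, ?_, ?_, ?_, ?_, ?_⟩
  · intro p hp
    simp only [hp, dif_pos]
    have := b.coord_apply_eq ⟨p, hp⟩
    rwa [hb] at this
  · intro p hp q hq hpq
    simp only [hp, dif_pos]
    have := b.coord_apply_ne (i := ⟨p, hp⟩) (j := ⟨q, hq⟩) (by simpa [Subtype.ext_iff] using hpq)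
    rwa [hb] at this
  · intro x
    have := b.sum_coord_apply_eq_one x
    rw [← this, ← Finset.sum_coe_sort S]
    refine Finset.sum_congr rfl (fun p _ => ?_)
    simp
  · intro x
    have := b.linear_combination_coord_eq_self x
    conv_rhs => rw [← this]
    rw [← Finset.sum_coe_sort S]
    refine Finset.sum_congr rfl (fun p _ => ?_)
    simp [hb]
  · intro x
    have := b.interior_convexHull
    have hr : Set.range b = (S : Set (EuclideanSpace ℝ (Fin d))) := by
      ext y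
      simp [hb]
    rw [hr] at this
    rw [this]
    constructor
    · intro h p hp
      simp only [hp, dif_pos]
      exact h ⟨p, hp⟩
    · intro h p
      have := h p.1 p.2
      simpa using this

section
variable {d : ℕ} {S : Finset (EuclideanSpace ℝ (Fin d))}
  {c : EuclideanSpace ℝ (Fin d) → (EuclideanSpace ℝ (Fin d) →ᵃ[ℝ] ℝ)}

theorem affine_eq (h1 : ∀ x, ∑ p ∈ S, c p x = 1) (h2 : ∀ x, ∑ p ∈ S, c p x • p = x)
    (g : EuclideanSpace ℝ (Fin d) →ᵃ[ℝ] ℝ) (x : EuclideanSpace ℝ (Fin d)) :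
    g x = ∑ p ∈ S, c p x * g p := by
  have key : ∀ y, g y = g.linear y + g 0 := by
    intro y
    have := g.map_vadd 0 y
    simpa using this
  have : g.linear x = ∑ p ∈ S, c p x * g.linear p := by
    conv_lhs => rw [← h2 x]
    simp
  calc g x = g.linear x + g 0 := key x
    _ = ∑ p ∈ S, c p x * g.linear p + (∑ p ∈ S, c p x) * g 0 := by rw [this, h1, one_mul]
    _ = ∑ p ∈ S, c p x * g p := by
      rw [Finset.sum_mul, ← Finset.sum_add_distrib]
      refine Finset.sum_congr rfl (fun p _ => ?_)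
      rw [key p]; ring

theorem linear_eq (h1 : ∀ x, ∑ p ∈ S, c p x = 1) (h2 : ∀ x, ∑ p ∈ S, c p x • p = x)
    (g : EuclideanSpace ℝ (Fin d) →ᵃ[ℝ] ℝ) (u : EuclideanSpace ℝ (Fin d)) :
    g.linear u = ∑ p ∈ S, (c p).linear u * g p := by
  have key : ∀ (g : EuclideanSpace ℝ (Fin d) →ᵃ[ℝ] ℝ), g.linear u = g u - g 0 := by
    intro g
    have := g.map_vadd 0 u
    simp at this
    rw [this]; ring
  rw [key g, affine_eq h1 h2 g u, affine_eq h1 h2 g 0, ← Finset.sum_sub_distrib]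
  refine Finset.sum_congr rfl (fun p _ => ?_)
  rw [key (c p)]; ring

theorem sum_linear_zero (h1 : ∀ x, ∑ p ∈ S, c p x = 1) (u : EuclideanSpace ℝ (Fin d)) :
    ∑ p ∈ S, (c p).linear u = 0 := by
  have key : ∀ (g : EuclideanSpace ℝ (Fin d) →ᵃ[ℝ] ℝ), g.linear u = g u - g 0 := by
    intro g
    have := g.map_vadd 0 u
    simp at this
    rw [this]; ring
  simp only [key]
  rw [Finset.sum_sub_distrib, h1, h1, sub_self]

end

end Pool.Agent.H107.DW
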