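import Mathlib
import Pool.Agent.H107.DWMain

namespace Pool.Agent.H107.DW

open Finset

/-- Existence of a common ray at the lowest vertex (Helly in dimension `d - 1`). -/
theorem exists_ray {d : ℕ} (F : Finset (Finset (EuclideanSpace ℝ (Fin d))))
    (f : EuclideanSpace ℝ (Fin d) →ₗ[ℝ] ℝ)
    (v : EuclideanSpace ℝ (Fin d))
    (c : Finset (EuclideanSpace ℝ (Fin d)) → EuclideanSpace ℝ (Fin d) →
      (EuclideanSpace ℝ (Fin d) →ᵃ[ℝ] ℝ))
    (hcard : ∀ S ∈ F, 2 ≤ S.card)
    (hv : ∀ S ∈ F, v ∈ S)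
    (hc0 : ∀ S ∈ F, ∀ p ∈ S, p ≠ v → c S p v = 0)
    (hcsum : ∀ S ∈ F, ∀ x, ∑ p ∈ S, c S p x = 1)
    (hccomb : ∀ S ∈ F, ∀ x, ∑ p ∈ S, c S p x • p = x)
    (hcint : ∀ S ∈ F, ∀ x, x ∈ interior (convexHull ℝ (S : Set (EuclideanSpace ℝ (Fin d)))) ↔
        ∀ p ∈ S, 0 < c S p x)
    (hf : ∀ S ∈ F, ∀ p ∈ S, p ≠ v → f v < f p)
    (hint : ∀ G ⊆ F, G.card ≤ d →
      (⋂ S ∈ G, interior (convexHull ℝ (S : Set (EuclideanSpace ℝ (Fin d))))).Nonempty) :
    ∃ u : EuclideanSpace ℝ (Fin d), ∀ S ∈ F, ∀ p ∈ S, p ≠ v → 0 < (c S p).linear u := by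
  classical
  rcases F.eq_empty_or_nonempty with hF | ⟨S0, hS0⟩
  · subst hF; exact ⟨0, by simp⟩
  -- `f ≠ 0`
  have hf0 : f ≠ 0 := by
    obtain ⟨p, hp, hpv⟩ := Finset.exists_mem_ne (by have := hcard S0 hS0; omega) v (s := S0)
    intro h
    have := hf S0 hS0 p hp hpv
    simp [h] at this
  have hsurj : Function.Surjective f := LinearMap.surjective hf0
  obtain ⟨u0, hu0⟩ := hsurj 1
  have hrank : Module.finrank ℝ (LinearMap.ker f) + 1 = d := by
    have h1 := LinearMap.finrank_range_add_finrank_ker f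
    rw [LinearMap.range_eq_top.mpr hsurj] at h1
    simp at h1
    omega
  let H : Finset (EuclideanSpace ℝ (Fin d)) → Set (LinearMap.ker f) := fun S =>
    {w | ∀ p ∈ S, p ≠ v → 0 < (c S p).linear ((w : EuclideanSpace ℝ (Fin d)) + u0)}
  have hconv : ∀ S ∈ F, Convex ℝ (H S) := by
    intro S _ w hw w' hw' a b ha hb hab p hp hpv
    have h1 := (convex_Ioi (0:ℝ)) (Set.mem_Ioi.mpr (hw p hp hpv)) (Set.mem_Ioi.mpr (hw' p hp hpv))
      ha hb hab
    have h2 : (((a • w + b • w' : LinearMap.ker f) : EuclideanSpace ℝ (Fin d)) + u0)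
        = a • ((w : EuclideanSpace ℝ (Fin d)) + u0) + b • ((w' : EuclideanSpace ℝ (Fin d)) + u0) := by
      have : u0 = a • u0 + b • u0 := by rw [← add_smul, hab, one_smul]
      conv_lhs => rw [this]
      push_cast
      module
    rw [h2, map_add, map_smul, map_smul]
    exact h1
  have hinter : ∀ I ⊆ F, I.card ≤ Module.finrank ℝ (LinearMap.ker f) + 1 →
      (⋂ i ∈ I, H i).Nonempty := by
    intro I hI hIc
    rw [hrank] at hIc
    rcases I.eq_empty_or_nonempty with hI0 | ⟨S1, hS1⟩
    · subst hI0; simp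
    obtain ⟨x, hx⟩ := hint I hI hIc
    simp only [Set.mem_iInter] at hx
    -- f (x - v) > 0
    have hpos : ∀ S ∈ I, ∀ p ∈ S, p ≠ v → 0 < (c S p).linear (x - v) := by
      intro S hS p hp hpv
      have h1 : (c S p).linear (x - v) = c S p x - c S p v := by
        have := (c S p).linearMap_vsub x v
        simpa using this
      rw [h1, hc0 S (hI hS) p hp hpv, sub_zero]
      exact (hcint S (hI hS) x).mp (hx S hS) p hp
    have hfx : 0 < f (x - v) := by
      have hS1F := hI hS1
      have e1 : f x = ∑ p ∈ S1, c S1 p x * f p := by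
        conv_lhs => rw [← hccomb S1 hS1F x]
        simp
      have e2 : f v = ∑ p ∈ S1, c S1 p x * f v := by
        rw [← Finset.sum_mul, hcsum S1 hS1F, one_mul]
      rw [map_sub, e1, e2, ← Finset.sum_sub_distrib]
      obtain ⟨p, hp, hpv⟩ := Finset.exists_mem_ne (by have := hcard S1 hS1F; omega) v (s := S1)
      apply Finset.sum_pos'
      · intro q hq
        have h3 := (hcint S1 hS1F x).mp (hx S1 hS1) q hq
        by_cases hqv : q = v
        · subst hqv; simp
        · have := hf S1 hS1F q hq hqv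
          nlinarith
      · refine ⟨p, hp, ?_⟩
        have h3 := (hcint S1 hS1F x).mp (hx S1 hS1) p hp
        have := hf S1 hS1F p hp hpv
        nlinarith
    have hker : (f (x - v))⁻¹ • (x - v) - u0 ∈ LinearMap.ker f := by
      rw [LinearMap.mem_ker, map_sub, map_smul, hu0, smul_eq_mul, inv_mul_cancel₀ hfx.ne', sub_self]
    refine ⟨⟨_, hker⟩, ?_⟩
    simp only [Set.mem_iInter]
    intro S hS p hp hpv
    have h4 : ((f (x - v))⁻¹ • (x - v) - u0) + u0 = (f (x - v))⁻¹ • (x - v) := by abel
    show 0 < (c S p).linear (((f (x - v))⁻¹ • (x - v) - u0) + u0)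
    rw [h4, map_smul, smul_eq_mul]
    exact mul_pos (inv_pos.mpr hfx) (hpos S hS p hp hpv)
  obtain ⟨w, hw⟩ := Convex.helly_theorem' hconv hinter
  simp only [Set.mem_iInter] at hw
  exact ⟨(w : EuclideanSpace ℝ (Fin d)) + u0, fun S hS p hp hpv => hw S hS p hp hpv⟩


/-- **Main bound.** -/
theorem main_bound {d : ℕ} (hd : 2 ≤ d) (P : Finset (EuclideanSpace ℝ (Fin d)))
    (hP : GeneralPosition P) (F : Finset (Finset (EuclideanSpace ℝ (Fin d))))
    (hF : ∀ S ∈ F, S ⊆ P ∧ S.card = d + 1)
    (hint : ∀ G ⊆ F, G.card ≤ d →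
      (⋂ S ∈ G, interior (convexHull ℝ (S : Set (EuclideanSpace ℝ (Fin d))))).Nonempty) :
    F.card ≤ ((P.card + d) / 2).choose (d + 1) + ((P.card + d + 1) / 2).choose (d + 1) := by
  classical
  rcases F.eq_empty_or_nonempty with hFe | ⟨S00, hS00⟩
  · subst hFe; simp
  have hPcard : d + 1 ≤ P.card := by
    have := Finset.card_le_card (hF S00 hS00).1
    rw [(hF S00 hS00).2] at this
    exact this
  -- generic linear functional
  obtain ⟨f, hf⟩ := Module.exists_dual_forall_apply_ne_zero
    (K := ℝ) (ι := P.offDiag) (fun x => x.1.1 - x.1.2) (by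
      intro x
      have := Finset.mem_offDiag.mp x.2
      exact sub_ne_zero.mpr this.2.2)
  have hfinj : ∀ p ∈ P, ∀ q ∈ P, f p = f q → p = q := by
    intro p hp q hq hpq
    by_contra hne
    have := hf ⟨(p, q), Finset.mem_offDiag.mpr ⟨hp, hq, hne⟩⟩
    apply this
    simp [map_sub, hpq]
  -- barycentric coordinates
  have hex : ∀ S : Finset (EuclideanSpace ℝ (Fin d)), ∃ c : EuclideanSpace ℝ (Fin d) →
      (EuclideanSpace ℝ (Fin d) →ᵃ[ℝ] ℝ), S ∈ F →
      ((∀ p ∈ S, c p p = 1) ∧ (∀ p ∈ S, ∀ q ∈ S, p ≠ q → c p q = 0) ∧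
      (∀ x, ∑ p ∈ S, c p x = 1) ∧ (∀ x, ∑ p ∈ S, c p x • p = x) ∧
      (∀ x, x ∈ interior (convexHull ℝ (S : Set (EuclideanSpace ℝ (Fin d)))) ↔
        ∀ p ∈ S, 0 < c p x)) := by
    intro S
    by_cases hS : S ∈ F
    · obtain ⟨c, hc⟩ := exists_bary S (hF S hS).2 (hP S (hF S hS).1 (hF S hS).2)
      exact ⟨c, fun _ => hc⟩
    · exact ⟨fun _ => 0, fun h => absurd h hS⟩
  choose c hc using hex
  have hc1 : ∀ S ∈ F, ∀ p ∈ S, c S p p = 1 := fun S hS => (hc S hS).1
  have hc0 : ∀ S ∈ F, ∀ p ∈ S, ∀ q ∈ S, p ≠ q → c S p q = 0 := fun S hS => (hc S hS).2.1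
  have hcsum : ∀ S ∈ F, ∀ x, ∑ p ∈ S, c S p x = 1 := fun S hS => (hc S hS).2.2.1
  have hccomb : ∀ S ∈ F, ∀ x, ∑ p ∈ S, c S p x • p = x := fun S hS => (hc S hS).2.2.2.1
  have hcint : ∀ S ∈ F, ∀ x, x ∈ interior (convexHull ℝ (S : Set (EuclideanSpace ℝ (Fin d)))) ↔
        ∀ p ∈ S, 0 < c S p x := fun S hS => (hc S hS).2.2.2.2
  -- lowest vertex
  have hexm : ∀ S : Finset (EuclideanSpace ℝ (Fin d)), ∃ v, S ∈ F → (v ∈ S ∧ ∀ p ∈ S, p ≠ v → f v < f p) := by
    intro S
    by_cases hS : S ∈ F
    · obtain ⟨v, hv, hmin⟩ := Finset.exists_min_image S f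
        (Finset.card_pos.mp (by rw [(hF S hS).2]; omega))
      refine ⟨v, fun _ => ⟨hv, fun p hp hpv => lt_of_le_of_ne (hmin p hp) ?_⟩⟩
      intro h
      exact hpv (hfinj p ((hF S hS).1 hp) v ((hF S hS).1 hv) h.symm)
    · exact ⟨0, fun h => absurd h hS⟩
  choose vm hvm using hexm
  have hvmem : ∀ S ∈ F, vm S ∈ S := fun S hS => (hvm S hS).1
  have hvlt : ∀ S ∈ F, ∀ p ∈ S, p ≠ vm S → f (vm S) < f p := fun S hS => (hvm S hS).2
  -- rays
  have hexr : ∀ v : EuclideanSpace ℝ (Fin d), ∃ u : EuclideanSpace ℝ (Fin d),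
      ∀ S ∈ F, vm S = v → ∀ p ∈ S, p ≠ v → 0 < (c S p).linear u := by
    intro v
    obtain ⟨u, hu⟩ := exists_ray (F.filter (fun S => vm S = v)) f v c
      (fun S hS => by rw [(hF S (Finset.mem_filter.mp hS).1).2]; omega)
      (fun S hS => by
        have h := Finset.mem_filter.mp hS
        rw [← h.2]; exact hvmem S h.1)
      (fun S hS p hp hpv => by
        have h := Finset.mem_filter.mp hS
        exact hc0 S h.1 p hp v (by rw [← h.2]; exact hvmem S h.1) hpv)
      (fun S hS => hcsum S (Finset.mem_filter.mp hS).1)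
      (fun S hS => hccomb S (Finset.mem_filter.mp hS).1)
      (fun S hS => hcint S (Finset.mem_filter.mp hS).1)
      (fun S hS p hp hpv => by
        have h := Finset.mem_filter.mp hS
        rw [← h.2] at hpv ⊢
        exact hvlt S h.1 p hp hpv)
      (fun G hG hGc => hint G (fun S hS => (Finset.mem_filter.mp (hG hS)).1) hGc)
    exact ⟨u, fun S hS hSv p hp hpv => hu S (Finset.mem_filter.mpr ⟨hS, hSv⟩) p hp hpv⟩
  choose u hu using hexr
  let α : Finset (EuclideanSpace ℝ (Fin d)) → ℝ := fun S => - (c S (vm S)).linear (u (vm S))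
  let A : Finset (EuclideanSpace ℝ (Fin d)) → Finset (EuclideanSpace ℝ (Fin d)) := fun S =>
    (P \ S).filter (fun p => f (vm S) < f p ∧ 0 < c S (vm S) p)
  let N : Finset (EuclideanSpace ℝ (Fin d)) → Finset (EuclideanSpace ℝ (Fin d)) := fun S =>
    (P \ S) \ A S
  -- nonvanishing by general position
  have hnz : ∀ S ∈ F, ∀ p ∈ P, p ∉ S → ∀ v ∈ S, c S v p ≠ 0 := by
    intro S hS p hp hpS v hv h0
    have hcard' : (insert p (S.erase v)).card = d + 1 := by
      rw [Finset.card_insert_of_notMem (by simp [hpS]), Finset.card_erase_of_mem hv, (hF S hS).2]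
      omega
    have hsub : insert p (S.erase v) ⊆ P := by
      intro q hq
      rcases Finset.mem_insert.mp hq with h | h
      · rw [h]; exact hp
      · exact (hF S hS).1 (Finset.mem_of_mem_erase h)
    obtain ⟨c', -, -, h3, h4, -⟩ := exists_bary _ hcard' (hP _ hsub hcard')
    have h5 := affine_eq h3 h4 (c S v) v
    rw [hc1 S hS v hv] at h5
    have h6 : ∑ q ∈ insert p (S.erase v), c' q v * c S v q = 0 := by
      refine Finset.sum_eq_zero (fun q hq => ?_)
      rcases Finset.mem_insert.mp hq with h | h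
      · rw [h, h0, mul_zero]
      · rw [hc0 S hS v hv q (Finset.mem_of_mem_erase h) (Finset.ne_of_mem_erase h).symm, mul_zero]
    rw [h6] at h5
    exact one_ne_zero h5
  -- the linear identity
  have hid : ∀ S ∈ F, ∀ S' ∈ F, vm S = vm S' →
      ∑ p ∈ S'.erase (vm S), (c S' p).linear (u (vm S)) * c S (vm S) p = α S' - α S := by
    intro S hS S' hS' hv
    have h1 := linear_eq (hcsum S' hS') (hccomb S' hS') (c S (vm S)) (u (vm S))
    have hvS' : vm S ∈ S' := by rw [hv]; exact hvmem S' hS'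
    rw [← Finset.add_sum_erase S' _ hvS'] at h1
    rw [hc1 S hS _ (hvmem S hS), mul_one] at h1
    simp only [α]
    rw [← hv]
    linarith
  have main2 : ∀ S ∈ F, ∀ S' ∈ F, S ≠ S' → vm S = vm S' → α S ≤ α S' →
      ¬ Disjoint (A S) S' ∧ ¬ Disjoint (N S') S := by
    intro S hS S' hS' hne hv hα
    have hvS' : vm S ∈ S' := by rw [hv]; exact hvmem S' hS'
    have hvS : vm S ∈ S := hvmem S hS
    have hcardeq : S.card = S'.card := by rw [(hF S hS).2, (hF S' hS').2]
    constructor
    · intro hdis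
      -- all p ∈ S' \ v have c_v^S p ≤ 0
      have hle : ∀ p ∈ S'.erase (vm S), c S (vm S) p ≤ 0 := by
        intro p hp
        have hpS' := Finset.mem_of_mem_erase hp
        have hpv := Finset.ne_of_mem_erase hp
        by_cases hpS : p ∈ S
        · rw [hc0 S hS _ hvS p hpS hpv.symm]
        · by_contra hpos
          push Not at hpos
          apply Finset.disjoint_left.mp hdis _ hpS'
          simp only [A, Finset.mem_filter, Finset.mem_sdiff]
          refine ⟨⟨(hF S' hS').1 hpS', hpS⟩, ?_, hpos⟩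
          rw [hv]
          exact hvlt S' hS' p hpS' (by rw [← hv]; exact hpv)
      obtain ⟨q, hqS', hqS⟩ : ∃ q ∈ S', q ∉ S := by
        by_contra hcon
        push Not at hcon
        exact hne (Finset.eq_of_subset_of_card_le hcon hcardeq.le).symm
      have hqv : q ≠ vm S := fun h => hqS (h ▸ hvS)
      have hlt : ∑ p ∈ S'.erase (vm S), (c S' p).linear (u (vm S)) * c S (vm S) p < 0 := by
        apply Finset.sum_neg'
        · intro p hp
          have hpv := Finset.ne_of_mem_erase hp
          have hpos := hu (vm S) S' hS' hv.symm p (Finset.mem_of_mem_erase hp) hpv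
          have := hle p hp
          exact mul_nonpos_of_nonneg_of_nonpos hpos.le this
        · refine ⟨q, Finset.mem_erase.mpr ⟨hqv, hqS'⟩, ?_⟩
          have hpos := hu (vm S) S' hS' hv.symm q hqS' hqv
          have h1 := hle q (Finset.mem_erase.mpr ⟨hqv, hqS'⟩)
          have h2 := hnz S hS q ((hF S' hS').1 hqS') hqS (vm S) hvS
          exact mul_neg_of_pos_of_neg hpos (lt_of_le_of_ne h1 h2)
      rw [hid S hS S' hS' hv] at hlt
      linarith
    · intro hdis
      have hge : ∀ p ∈ S.erase (vm S'), 0 ≤ c S' (vm S') p := by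
        intro p hp
        have hpS := Finset.mem_of_mem_erase hp
        have hpv := Finset.ne_of_mem_erase hp
        by_cases hpS' : p ∈ S'
        · rw [hc0 S' hS' _ (hvmem S' hS') p hpS' hpv.symm]
        · by_contra hneg
          push Not at hneg
          apply Finset.disjoint_left.mp hdis _ hpS
          simp only [N, A, Finset.mem_filter, Finset.mem_sdiff]
          refine ⟨⟨(hF S hS).1 hpS, hpS'⟩, ?_⟩
          rintro ⟨-, -, h⟩
          linarith
      obtain ⟨q, hqS, hqS'⟩ : ∃ q ∈ S, q ∉ S' := by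
        by_contra hcon
        push Not at hcon
        exact hne (Finset.eq_of_subset_of_card_le hcon hcardeq.ge)
      have hqv : q ≠ vm S' := fun h => hqS' (h ▸ hvmem S' hS')
      have hlt : 0 < ∑ p ∈ S.erase (vm S'), (c S p).linear (u (vm S')) * c S' (vm S') p := by
        apply Finset.sum_pos'
        · intro p hp
          have hpv := Finset.ne_of_mem_erase hp
          have hpos := hu (vm S') S hS hv p (Finset.mem_of_mem_erase hp) hpv
          have := hge p hp
          exact mul_nonneg hpos.le this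
        · refine ⟨q, Finset.mem_erase.mpr ⟨hqv, hqS⟩, ?_⟩
          have hpos := hu (vm S') S hS hv q hqS hqv
          have h1 := hge q (Finset.mem_erase.mpr ⟨hqv, hqS⟩)
          have h2 := hnz S' hS' q ((hF S hS).1 hqS) hqS' (vm S') (hvmem S' hS')
          exact mul_pos hpos (lt_of_le_of_ne h1 h2.symm)
      rw [hid S' hS' S hS hv.symm] at hlt
      linarith
  have main1 : ∀ S ∈ F, ∀ S' ∈ F, f (vm S) < f (vm S') →
      ¬ Disjoint (A S) S' ∧ ¬ Disjoint (N S') S := by
    intro S hS S' hS' hlt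
    have hvS : vm S ∈ S := hvmem S hS
    have hall : ∀ p ∈ S', f (vm S) < f p := by
      intro p hp
      by_cases h : p = vm S'
      · rw [h]; exact hlt
      · exact hlt.trans (hvlt S' hS' p hp h)
    constructor
    · intro hdis
      have hne : S ≠ S' := by rintro rfl; exact lt_irrefl _ hlt
      obtain ⟨x, hx⟩ := hint {S, S'} (by
        intro T hT
        rcases Finset.mem_insert.mp hT with h | h
        · rw [h]; exact hS
        · rw [Finset.mem_singleton.mp h]; exact hS') (by
        rw [Finset.card_pair hne]; exact hd)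
      simp only [Finset.mem_insert, Finset.mem_singleton, Set.iInter_iInter_eq_or_left,
        Set.iInter_iInter_eq_left, Set.mem_inter_iff] at hx
      have hx1 := (hcint S hS x).mp hx.1
      have hx2 := (hcint S' hS' x).mp hx.2
      have hpos := hx1 (vm S) hvS
      rw [affine_eq (hcsum S' hS') (hccomb S' hS') (c S (vm S)) x] at hpos
      have hle : ∑ p ∈ S', c S' p x * c S (vm S) p ≤ 0 := by
        apply Finset.sum_nonpos
        intro p hp
        have h1 := hx2 p hp
        have h2 : c S (vm S) p ≤ 0 := by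
          by_cases hpS : p ∈ S
          · rw [hc0 S hS _ hvS p hpS (by rintro rfl; exact lt_irrefl _ (hall _ hp))]
          · by_contra hpos
            push Not at hpos
            apply Finset.disjoint_left.mp hdis _ hp
            simp only [A, Finset.mem_filter, Finset.mem_sdiff]
            exact ⟨⟨(hF S' hS').1 hp, hpS⟩, hall p hp, hpos⟩
        exact mul_nonpos_of_nonneg_of_nonpos h1.le h2
      linarith
    · intro hdis
      apply Finset.disjoint_left.mp hdis _ hvS
      simp only [N, A, Finset.mem_filter, Finset.mem_sdiff]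
      refine ⟨⟨(hF S hS).1 hvS, ?_⟩, ?_⟩
      · intro h
        exact lt_irrefl _ (hall _ h)
      · rintro ⟨-, h, -⟩
        exact lt_asymm h hlt
  -- sizes
  have hsize : ∀ S ∈ F, (N S).card + (A S).card = P.card - (d + 1) := by
    intro S hS
    have h1 : A S ⊆ P \ S := Finset.filter_subset _ _
    simp only [N]
    rw [Finset.card_sdiff_of_subset h1, Finset.card_sdiff_of_subset (hF S hS).1, (hF S hS).2]
    have h2 := Finset.card_le_card h1
    rw [Finset.card_sdiff_of_subset (hF S hS).1, (hF S hS).2] at h2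
    omega
  -- keys
  let κ : Finset (EuclideanSpace ℝ (Fin d)) → ℝ ×ₗ ℝ := fun S => toLex (f (vm S), α S)
  have hkey : ∀ S ∈ F, ∀ S' ∈ F, S ≠ S' → κ S ≤ κ S' →
      ¬ Disjoint (A S) S' ∧ ¬ Disjoint (N S') S := by
    intro S hS S' hS' hne hκ
    simp only [κ, Prod.Lex.toLex_le_toLex] at hκ
    rcases hκ with h | ⟨h1, h2⟩
    · exact main1 S hS S' hS' h
    · exact main2 S hS S' hS' hne
        (hfinj _ ((hF S hS).1 (hvmem S hS)) _ ((hF S' hS').1 (hvmem S' hS')) h1) h2
  -- first half
  have half1 : ∀ a : ℕ, (F.filter (fun S => (A S).card ≤ a)).card ≤ (a + (d + 1)).choose (d + 1) := by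
    intro a
    have := skew_pairs (ι := (F.filter (fun S => (A S).card ≤ a)))
      (κ := fun S => κ S.1) (A := fun S => A S.1) (B := fun S => S.1) f a (d + 1)
      (fun i j x hx y hy hxy => by
        have hi := (Finset.mem_filter.mp i.2).1
        have hj := (Finset.mem_filter.mp j.2).1
        have hxP : x ∈ P := (Finset.mem_sdiff.mp (Finset.mem_filter.mp hx).1).1
        exact hfinj x hxP y ((hF _ hj).1 hy) hxy)
      (fun i => (Finset.mem_filter.mp i.2).2)
      (fun i => (hF _ (Finset.mem_filter.mp i.2).1).2)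
      (fun i => by
        rw [Finset.disjoint_left]
        intro x hx
        exact (Finset.mem_sdiff.mp (Finset.mem_filter.mp hx).1).2)
      (fun i j hij hκ => (hkey _ (Finset.mem_filter.mp i.2).1 _ (Finset.mem_filter.mp j.2).1
        (fun h => hij (Subtype.ext h)) hκ).1)
    simpa using this
  have half2 : ∀ a : ℕ, (F.filter (fun S => (N S).card ≤ a)).card ≤ (a + (d + 1)).choose (d + 1) := by
    intro a
    have := skew_pairs (ι := (F.filter (fun S => (N S).card ≤ a)))
      (κ := fun S => OrderDual.toDual (κ S.1)) (A := fun S => N S.1) (B := fun S => S.1) f a (d + 1)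
      (fun i j x hx y hy hxy => by
        have hj := (Finset.mem_filter.mp j.2).1
        have hxP : x ∈ P := (Finset.mem_sdiff.mp (Finset.mem_sdiff.mp hx).1).1
        exact hfinj x hxP y ((hF _ hj).1 hy) hxy)
      (fun i => (Finset.mem_filter.mp i.2).2)
      (fun i => (hF _ (Finset.mem_filter.mp i.2).1).2)
      (fun i => by
        rw [Finset.disjoint_left]
        intro x hx
        exact (Finset.mem_sdiff.mp (Finset.mem_sdiff.mp hx).1).2)
      (fun i j hij hκ => (hkey _ (Finset.mem_filter.mp j.2).1 _ (Finset.mem_filter.mp i.2).1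
        (fun h => hij (Subtype.ext h.symm)) (OrderDual.toDual_le_toDual.mp hκ)).2)
    simpa using this
  -- conclusion
  obtain ⟨D, hD⟩ : ∃ D, P.card = D + (d + 1) := ⟨P.card - (d + 1), by omega⟩
  rcases Nat.eq_zero_or_pos D with hD0 | hDpos
  · have h1 : F ⊆ F.filter (fun S => (A S).card ≤ 0) := by
      intro S hS
      refine Finset.mem_filter.mpr ⟨hS, ?_⟩
      have := hsize S hS
      omega
    have h2 := (Finset.card_le_card h1).trans (half1 0)
    refine h2.trans ?_
    have e1 : (P.card + d + 1) / 2 = 0 + (d + 1) := by omega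
    rw [e1]
    omega
  · have h1 : F ⊆ F.filter (fun S => (A S).card ≤ D / 2) ∪
        F.filter (fun S => (N S).card ≤ (D - 1) / 2) := by
      intro S hS
      rw [Finset.mem_union, Finset.mem_filter, Finset.mem_filter]
      have := hsize S hS
      by_cases h : (A S).card ≤ D / 2
      · exact Or.inl ⟨hS, h⟩
      · right
        exact ⟨hS, by omega⟩
    have h2 := (Finset.card_le_card h1).trans (Finset.card_union_le _ _)
    have h3 := half1 (D / 2)
    have h4 := half2 ((D - 1) / 2)
    have e1 : (P.card + d + 1) / 2 = D / 2 + (d + 1) := by omega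
    have e2 : (P.card + d) / 2 = (D - 1) / 2 + (d + 1) := by omega
    rw [e1, e2]
    omega

end Pool.Agent.H107.DW
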