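import Mathlib
import Pool.Agent.H107.DWMain

namespace Pool.Agent.H107.DW

open Finset Polynomial

/-- The moment curve direction `(1, t, ..., t^(d-1))`. -/
noncomputable def mom (d : ℕ) (t : ℝ) : EuclideanSpace ℝ (Fin d) :=
  WithLp.toLp 2 (fun k : Fin d => t ^ (k : ℕ))

theorem mom_apply (d : ℕ) (t : ℝ) (k : Fin d) : mom d t k = t ^ (k : ℕ) := rfl

theorem norm_mom_sq (d : ℕ) (t : ℝ) : ‖mom d t‖ ^ 2 = ∑ k : Fin d, (t ^ (k : ℕ)) ^ 2 := by
  rw [EuclideanSpace.norm_sq_eq]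
  refine Finset.sum_congr rfl (fun k _ => ?_)
  rw [mom_apply, Real.norm_eq_abs, sq_abs]

theorem norm_mom_pos {d : ℕ} (hd : 1 ≤ d) (t : ℝ) : 0 < ‖mom d t‖ := by
  rw [norm_pos_iff]
  intro h
  have h0 := congrArg (fun x : EuclideanSpace ℝ (Fin d) => x ⟨0, hd⟩) h
  simp [mom_apply] at h0

/-- The normalised point with alternating sign. -/
noncomputable def pt (d : ℕ) (t : ℕ → ℝ) (i : ℕ) : EuclideanSpace ℝ (Fin d) :=
  ((-1 : ℝ) ^ i * ‖mom d (t i)‖⁻¹) • mom d (t i)

theorem norm_pt {d : ℕ} (hd : 1 ≤ d) (t : ℕ → ℝ) (i : ℕ) : ‖pt d t i‖ = 1 := by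
  rw [pt, norm_smul, norm_mul, norm_pow, norm_neg, norm_one, one_pow, one_mul, norm_inv, norm_norm]
  exact inv_mul_cancel₀ (norm_mom_pos hd _).ne'

/-- `1 + X^2 + ... + X^(2(d-1))` is not a scalar times a square. -/
theorem not_square {d : ℕ} (hd : 2 ≤ d) (q : ℝ[X]) (b : ℝ) (hb : b ≠ 0)
    (h : q * q = C (b ^ 2) * ∑ k : Fin d, (X ^ (k : ℕ) : ℝ[X]) ^ 2) : False := by
  have hgeom : (∑ k : Fin d, (X ^ (k : ℕ) : ℝ[X]) ^ 2) * (X ^ 2 - 1) = X ^ (2 * d) - 1 := by
    have := geom_sum_mul (X ^ 2 : ℝ[X]) d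
    rw [Finset.sum_range] at this
    rw [pow_mul, ← this]
    congr 1
    refine Finset.sum_congr rfl (fun k _ => ?_)
    rw [← pow_mul, ← pow_mul, mul_comm]
  have hsq : Squarefree (X ^ (2 * d) - C (1 : ℝ)) := by
    apply Polynomial.Separable.squarefree
    exact separable_X_pow_sub_C (1 : ℝ) (by
      have : (0:ℝ) < ((2 * d : ℕ) : ℝ) := by exact_mod_cast (by omega : 0 < 2 * d)
      exact this.ne') one_ne_zero
  have hdvd : q * q ∣ X ^ (2 * d) - C (1 : ℝ) := by
    refine ⟨C ((b ^ 2)⁻¹) * (X ^ 2 - 1), ?_⟩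
    rw [h]
    have hC : (C (b ^ 2) : ℝ[X]) * C ((b ^ 2)⁻¹) = 1 := by
      rw [← C_mul, mul_inv_cancel₀ (pow_ne_zero 2 hb), C_1]
    calc X ^ (2 * d) - C (1 : ℝ) = X ^ (2 * d) - 1 := by rw [C_1]
      _ = (C (b ^ 2) * C ((b ^ 2)⁻¹)) * ((∑ k : Fin d, (X ^ (k : ℕ) : ℝ[X]) ^ 2) * (X ^ 2 - 1)) := by
        rw [hC, hgeom, one_mul]
      _ = _ := by ring
  have hunit := hsq q hdvd
  have hdeg : q.natDegree = 0 := by
    exact natDegree_eq_zero_of_isUnit hunit
  -- degree of the right side is 2(d-1)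
  have hq : q = C (q.coeff 0) := eq_C_of_natDegree_eq_zero hdeg
  have h2 : (q * q).coeff 2 = 0 := by
    rw [hq, ← C_mul, coeff_C]
    simp
  rw [h, coeff_C_mul, finsetSum_coeff] at h2
  have h3 : ∑ k : Fin d, ((X ^ (k : ℕ) : ℝ[X]) ^ 2).coeff 2 = 1 := by
    rw [Finset.sum_eq_single (⟨1, hd⟩ : Fin d)]
    · simp [coeff_X_pow]
    · intro k _ hk
      rw [← pow_mul, coeff_X_pow]
      have : (k : ℕ) ≠ 1 := fun h => hk (Fin.ext h)
      rw [if_neg (by omega)]
    · intro h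
      exact absurd (Finset.mem_univ _) h
  rw [h3, mul_one] at h2
  exact hb (pow_eq_zero_iff (two_ne_zero) |>.mp h2)

/-- A proper affine subspace meets `± pt` finitely often. -/
theorem finite_bad {d : ℕ} (hd : 2 ≤ d) (H : AffineSubspace ℝ (EuclideanSpace ℝ (Fin d)))
    (hH : H ≠ ⊤) :
    {τ : ℝ | ∃ s : ℝ, s ^ 2 = 1 ∧ (s * ‖mom d τ‖⁻¹) • mom d τ ∈ H}.Finite := by
  rcases (H : Set (EuclideanSpace ℝ (Fin d))).eq_empty_or_nonempty with he | ⟨x0, hx0⟩
  · have : {τ : ℝ | ∃ s : ℝ, s ^ 2 = 1 ∧ (s * ‖mom d τ‖⁻¹) • mom d τ ∈ H} = ∅ := by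
      rw [Set.eq_empty_iff_forall_notMem]
      rintro τ ⟨s, -, hs⟩
      have : (s * ‖mom d τ‖⁻¹) • mom d τ ∈ (H : Set (EuclideanSpace ℝ (Fin d))) := hs
      rw [he] at this
      exact this
    rw [this]; exact Set.finite_empty
  · have hdir : H.direction ≠ ⊤ := by
      intro h
      apply hH
      exact (AffineSubspace.direction_eq_top_iff_of_nonempty ⟨x0, hx0⟩).mp h
    obtain ⟨φ, hφ0, hφ⟩ := Submodule.exists_dual_map_eq_bot_of_lt_top (lt_top_iff_ne_top.mpr hdir)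
      inferInstance
    have hφH : ∀ x ∈ H, φ x = φ x0 := by
      intro x hx
      have h1 : x - x0 ∈ H.direction := AffineSubspace.vsub_mem_direction hx hx0
      have h2 : φ (x - x0) ∈ H.direction.map φ := Submodule.mem_map_of_mem h1
      rw [hφ, Submodule.mem_bot, map_sub, sub_eq_zero] at h2
      exact h2
    set b := φ x0 with hb
    let a : Fin d → ℝ := fun k => φ (EuclideanSpace.single k 1)
    let q : ℝ[X] := ∑ k : Fin d, C (a k) * X ^ (k : ℕ)
    have hmom : ∀ τ, mom d τ = ∑ k : Fin d, (τ ^ (k : ℕ)) • EuclideanSpace.single k (1 : ℝ) := by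
      intro τ
      ext j
      simp [mom_apply, Pi.single_apply]
    have hq : ∀ τ, φ (mom d τ) = q.eval τ := by
      intro τ
      rw [hmom]
      simp only [map_sum, map_smul, smul_eq_mul, q, a, eval_finsetSum, eval_mul, eval_C, eval_pow,
        eval_X]
      exact Finset.sum_congr rfl (fun k _ => mul_comm _ _)
    have hq0 : q ≠ 0 := by
      intro h
      apply hφ0
      apply (EuclideanSpace.basisFun (Fin d) ℝ).toBasis.ext
      intro k
      have hk : q.coeff (k : ℕ) = a k := by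
        simp only [q, finsetSum_coeff, coeff_C_mul, coeff_X_pow]
        rw [Finset.sum_eq_single k]
        · simp
        · intro j _ hj
          rw [if_neg (fun h => hj (Fin.ext h.symm)), mul_zero]
        · intro h
          exact absurd (Finset.mem_univ _) h
      rw [h, coeff_zero] at hk
      simp only [OrthonormalBasis.coe_toBasis, EuclideanSpace.basisFun_apply, LinearMap.zero_apply]
      exact hk.symm
    let r : ℝ[X] := q * q - C (b ^ 2) * ∑ k : Fin d, (X ^ (k : ℕ) : ℝ[X]) ^ 2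
    have hr : r ≠ 0 := by
      intro h
      by_cases hb0 : b = 0
      · simp only [r, hb0] at h
        simp only [ne_eq, OfNat.ofNat_ne_zero, not_false_eq_true, zero_pow, map_zero, zero_mul,
          sub_zero, mul_self_eq_zero] at h
        exact hq0 h
      · exact not_square hd q b hb0 (sub_eq_zero.mp h)
    refine (r.roots.toFinset.finite_toSet).subset ?_
    rintro τ ⟨s, hs, hmem⟩
    simp only [Finset.mem_coe, Multiset.mem_toFinset, mem_roots hr, IsRoot.def]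
    have h1 := hφH _ hmem
    rw [map_smul, hq, smul_eq_mul] at h1
    have hpos := norm_mom_pos (by omega : 1 ≤ d) τ
    have h2 : s * q.eval τ = b * ‖mom d τ‖ := by
      rw [← h1]
      field_simp
    have h3 : (q.eval τ) ^ 2 = b ^ 2 * ‖mom d τ‖ ^ 2 := by
      have : (s * q.eval τ) ^ 2 = (b * ‖mom d τ‖) ^ 2 := by rw [h2]
      rw [mul_pow, hs, one_mul, mul_pow] at this
      exact this
    rw [norm_mom_sq] at h3
    simp only [r, eval_sub, eval_mul, eval_C, eval_finsetSum, eval_pow, eval_X]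
    rw [← h3]; ring

end Pool.Agent.H107.DW
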