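import Mathlib
import Pool.Agent.H107.DWSharpA

namespace Pool.Agent.H107.DW

open Finset

theorem affineSpan_ne_top {d : ℕ} (I : Finset ℕ) (hI : I.card ≤ d)
    (p : ℕ → EuclideanSpace ℝ (Fin d)) :
    affineSpan ℝ (p '' (I : Set ℕ)) ≠ ⊤ := by
  classical
  intro h
  rcases I.eq_empty_or_nonempty with hIe | hIne
  · subst hIe
    simp at h
  · have h1 : vectorSpan ℝ (p '' (I : Set ℕ)) = ⊤ := by
      rw [← direction_affineSpan, h, AffineSubspace.direction_top]
    have h2 := finrank_vectorSpan_image_finset_le ℝ p I (n := I.card - 1)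
      (by have := hIne.card_pos; omega)
    rw [Finset.coe_image, h1, finrank_top] at h2
    simp at h2
    have := hIne.card_pos
    omega

theorem exists_params {d : ℕ} (hd : 2 ≤ d) (n : ℕ) :
    ∃ t : ℕ → ℝ, (∀ i j, i < j → j < n → t i < t j) ∧
      (∀ J : Finset ℕ, J ⊆ Finset.range n → J.card ≤ d + 1 →
        AffineIndependent ℝ (fun i : J => pt d t i)) := by
  classical
  induction n with
  | zero =>
    refine ⟨fun _ => 0, fun i j _ h => absurd h (Nat.not_lt_zero _), fun J hJ _ => ?_⟩
    have hJe : J = ∅ := by simpa using hJ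
    subst hJe
    exact affineIndependent_of_subsingleton ℝ _
  | succ n ih =>
    obtain ⟨t, ht, hAI⟩ := ih
    let bad : Set ℝ := ⋃ I ∈ (Finset.range n).powerset.filter (fun I => I.card ≤ d),
      {τ : ℝ | ∃ s : ℝ, s ^ 2 = 1 ∧ (s * ‖mom d τ‖⁻¹) • mom d τ ∈
        affineSpan ℝ (pt d t '' (I : Set ℕ))}
    have hbad : bad.Finite := by
      apply Set.Finite.biUnion (Finset.finite_toSet _)
      intro I hI
      exact finite_bad hd _ (affineSpan_ne_top I (Finset.mem_filter.mp hI).2 _)
    obtain ⟨M, hM⟩ : ∃ M : ℝ, ∀ i < n, t i ≤ M := by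
      obtain ⟨M, hM⟩ := ((Finset.range n).image t).bddAbove
      exact ⟨M, fun i hi => hM (by simpa using ⟨i, hi, rfl⟩)⟩
    obtain ⟨τ, hτM, hτbad⟩ : ∃ τ, M < τ ∧ τ ∉ bad := by
      by_contra hcon
      push Not at hcon
      exact (Set.Ioi_infinite M) (hbad.subset (fun τ hτ => hcon τ hτ))
    let t' : ℕ → ℝ := fun i => if i < n then t i else τ
    have hpt : ∀ i, i < n → pt d t' i = pt d t i := by
      intro i hi
      simp only [pt, t', if_pos hi]
    refine ⟨t', ?_, ?_⟩
    · intro i j hij hj
      by_cases hjn : j < n
      · simp only [t', if_pos hjn, if_pos (hij.trans hjn)]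
        exact ht i j hij hjn
      · have hin : i < n := by omega
        simp only [t', if_pos hin, if_neg hjn]
        exact lt_of_le_of_lt (hM i hin) hτM
    · intro J hJ hJc
      by_cases hn : n ∈ J
      · -- the new point
        have hIsub : J.erase n ⊆ Finset.range n := by
          intro i hi
          have h1 := Finset.mem_range.mp (hJ (Finset.mem_of_mem_erase hi))
          have h2 := Finset.ne_of_mem_erase hi
          exact Finset.mem_range.mpr (by omega)
        have hIc : (J.erase n).card ≤ d := by
          rw [Finset.card_erase_of_mem hn]; omega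
        have hAI' := hAI (J.erase n) hIsub (by omega)
        refine AffineIndependent.affineIndependent_of_notMem_span (i := (⟨n, hn⟩ : J)) ?_ ?_
        · let emb : {y : J // y ≠ ⟨n, hn⟩} ↪ (J.erase n : Finset ℕ) :=
            ⟨fun y => ⟨y.1.1, Finset.mem_erase.mpr ⟨fun h => y.2 (Subtype.ext h), y.1.2⟩⟩, by
              intro a b hab
              apply Subtype.ext
              apply Subtype.ext
              simpa using hab⟩
          have h3 := hAI'.comp_embedding emb
          have heq : (fun y : {y : J // y ≠ ⟨n, hn⟩} => pt d t' (y.1.1)) =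
              ((fun i : (J.erase n : Finset ℕ) => pt d t i) ∘ emb) := by
            funext y
            have hy : (y.1.1 : ℕ) < n :=
              Finset.mem_range.mp (hIsub (Finset.mem_erase.mpr
                ⟨fun h => y.2 (Subtype.ext h), y.1.2⟩))
            simp only [Function.comp, emb]
            exact hpt _ hy
          show AffineIndependent ℝ (fun y : {y : J // y ≠ ⟨n, hn⟩} => pt d t' (y.1.1))
          rw [heq]
          exact h3
        · intro hmem
          apply hτbad
          simp only [bad, Set.mem_iUnion]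
          refine ⟨J.erase n, Finset.mem_filter.mpr ⟨Finset.mem_powerset.mpr hIsub, hIc⟩, ?_⟩
          refine ⟨(-1) ^ n, by rw [← pow_mul, mul_comm, pow_mul]; simp, ?_⟩
          have hset : (fun i : J => pt d t' i) '' {x | x ≠ ⟨n, hn⟩} =
              pt d t '' ((J.erase n : Finset ℕ) : Set ℕ) := by
            ext y
            simp only [Set.mem_image, Set.mem_ofPred_eq, Finset.mem_coe, Finset.mem_erase]
            constructor
            · rintro ⟨x, hx, rfl⟩
              have hxn : (x : ℕ) ≠ n := fun h => hx (Subtype.ext h)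
              refine ⟨x, ⟨hxn, x.2⟩, ?_⟩
              exact (hpt x (Finset.mem_range.mp (hIsub (Finset.mem_erase.mpr ⟨hxn, x.2⟩)))).symm
            · rintro ⟨x, ⟨hxn, hx⟩, rfl⟩
              refine ⟨⟨x, hx⟩, fun h => hxn (congrArg Subtype.val h), ?_⟩
              exact hpt x (Finset.mem_range.mp (hIsub (Finset.mem_erase.mpr ⟨hxn, hx⟩)))
          rw [hset] at hmem
          have htn : pt d t' n = ((-1 : ℝ) ^ n * ‖mom d τ‖⁻¹) • mom d τ := by
            simp [pt, t']
          simpa [htn] using hmem
      · have hJ' : J ⊆ Finset.range n := by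
          intro i hi
          have h1 := Finset.mem_range.mp (hJ hi)
          have h2 : i ≠ n := fun h => hn (h ▸ hi)
          exact Finset.mem_range.mpr (by omega)
        have h3 := hAI J hJ' hJc
        have heq : (fun y : J => pt d t' (y : ℕ)) = (fun y : J => pt d t (y : ℕ)) := by
          funext y
          exact hpt _ (Finset.mem_range.mp (hJ' y.2))
        rw [heq]
        exact h3

end Pool.Agent.H107.DW
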