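import Mathlib
import Pool.Agent.H107.DWSharpB

namespace Pool.Agent.H107.DW

open Finset Polynomial

/-- The number of elements of `J` below `x`. -/
def rk (J : Finset ℕ) (x : ℕ) : ℕ := (J.filter (fun y => y < x)).card

/-- Alternating parity. -/
def Alt (ε : ℕ) (J : Finset ℕ) : Prop := ∀ x ∈ J, (x + rk J x + ε) % 2 = 0

theorem zero_mem_interior {d : ℕ} (n : ℕ) (t : ℕ → ℝ)
    (ht : ∀ i j, i < j → j < n → t i < t j)
    (hAI : ∀ J : Finset ℕ, J ⊆ Finset.range n → J.card ≤ d + 1 →
        AffineIndependent ℝ (fun i : J => pt d t i)) (hd : 1 ≤ d)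
    (hinj : Set.InjOn (pt d t) (Finset.range n : Set ℕ))
    (J : Finset ℕ) (hJ : J ⊆ Finset.range n) (hJc : J.card = d + 1) (ε : ℕ) (hε : Alt ε J) :
    (0 : EuclideanSpace ℝ (Fin d)) ∈
      interior (convexHull ℝ ((J.image (pt d t) : Finset (EuclideanSpace ℝ (Fin d))) :
        Set (EuclideanSpace ℝ (Fin d)))) := by
  classical
  have hinjJ : Set.InjOn (pt d t) (J : Set ℕ) := hinj.mono (by exact_mod_cast hJ)
  have hcardS : (J.image (pt d t)).card = d + 1 := by
    rw [Finset.card_image_of_injOn hinjJ, hJc]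
  have hindS : AffineIndependent ℝ (fun x : (J.image (pt d t) : Finset _) =>
      (x : EuclideanSpace ℝ (Fin d))) := by
    have h := (hAI J hJ hJc.le).range
    have hr : Set.range (fun i : J => pt d t i) =
        ((J.image (pt d t) : Finset (EuclideanSpace ℝ (Fin d))) : Set _) := by
      ext y
      simp
    rw [hr] at h
    exact h
  obtain ⟨c, hc1, hc0, -, -, hcint⟩ := exists_bary _ hcardS hindS
  rw [hcint]
  -- nodes
  have htinj : Set.InjOn t (J : Set ℕ) := by
    intro x hx y hy hxy
    have hx' := Finset.mem_range.mp (hJ hx)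
    have hy' := Finset.mem_range.mp (hJ hy)
    rcases lt_trichotomy x y with h | h | h
    · exact absurd hxy (ht x y h hy').ne
    · exact h
    · exact absurd hxy (ht y x h hx').ne'
  let D : ℕ → ℝ := fun x => ∏ y ∈ J.erase x, (t x - t y)
  have hlag : ∀ k < d, ∑ x ∈ J, (t x) ^ k / D x = 0 := by
    intro k hk
    have h := Lagrange.coeff_eq_sum (F := ℝ) htinj (P := (X ^ k : ℝ[X])) (by
      rw [degree_X_pow, hJc]
      exact_mod_cast (by omega : k < d + 1))
    rw [hJc, Nat.add_sub_cancel, coeff_X_pow, if_neg (by omega)] at h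
    rw [h]
    refine Finset.sum_congr rfl (fun x _ => ?_)
    simp [D]
  -- signs
  have hsign : ∀ x ∈ J, 0 < (-1 : ℝ) ^ (d - rk J x) * D x := by
    intro x hx
    have hcount : ((J.erase x).filter (fun y => x < y)).card = d - rk J x := by
      have h1 : (J.erase x).card = d := by rw [Finset.card_erase_of_mem hx, hJc]; omega
      have h2 := Finset.card_filter_add_card_filter_not (s := J.erase x) (fun y => x < y)
      have h3 : ((J.erase x).filter (fun y => ¬ x < y)) = J.filter (fun y => y < x) := by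
        ext y
        simp only [Finset.mem_filter, Finset.mem_erase]
        constructor
        · rintro ⟨⟨h4, h5⟩, h6⟩; exact ⟨h5, by omega⟩
        · rintro ⟨h4, h5⟩; exact ⟨⟨by omega, h4⟩, by omega⟩
      rw [h3] at h2
      simp only [rk]
      omega
    have hprod : (-1 : ℝ) ^ (d - rk J x) = ∏ y ∈ J.erase x, (if x < y then (-1 : ℝ) else 1) := by
      rw [Finset.prod_ite, Finset.prod_const, Finset.prod_const_one, mul_one, hcount]
    rw [hprod, ← Finset.prod_mul_distrib]
    apply Finset.prod_pos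
    intro y hy
    have hyJ := Finset.mem_of_mem_erase hy
    have hne := Finset.ne_of_mem_erase hy
    have hx' := Finset.mem_range.mp (hJ hx)
    have hy' := Finset.mem_range.mp (hJ hyJ)
    by_cases hxy : x < y
    · rw [if_pos hxy]
      have := ht x y hxy hy'
      linarith
    · rw [if_neg hxy]
      have := ht y x (by omega) hx'
      linarith
  let β : ℕ → ℝ := fun x => ‖mom d (t x)‖ / |D x|
  have hDne : ∀ x ∈ J, D x ≠ 0 := by
    intro x hx h
    have := hsign x hx
    rw [h, mul_zero] at this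
    exact lt_irrefl _ this
  have hβ : ∀ x ∈ J, 0 < β x := fun x hx =>
    div_pos (norm_mom_pos hd _) (abs_pos.mpr (hDne x hx))
  have hrk : ∀ x ∈ J, rk J x ≤ d := by
    intro x hx
    have h1 : J.filter (fun y => y < x) ⊆ J.erase x := by
      intro y hy
      have := Finset.mem_filter.mp hy
      exact Finset.mem_erase.mpr ⟨by omega, this.1⟩
    have h2 := Finset.card_le_card h1
    rw [Finset.card_erase_of_mem hx, hJc] at h2
    simp only [rk]; omega
  have habs : ∀ x ∈ J, |D x| = (-1 : ℝ) ^ (d - rk J x) * D x := by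
    intro x hx
    rw [← abs_of_pos (hsign x hx), abs_mul, abs_pow, abs_neg, abs_one, one_pow, one_mul]
  have hsum : ∑ x ∈ J, β x • pt d t x = 0 := by
    have hterm : ∀ x ∈ J, β x • pt d t x = ((-1 : ℝ) ^ (d + ε) * (D x)⁻¹) • mom d (t x) := by
      intro x hx
      rw [pt, smul_smul]
      congr 1
      simp only [β]
      rw [habs x hx]
      have hn := (norm_mom_pos hd (t x)).ne'
      have hD := hDne x hx
      have hpow : (-1 : ℝ) ^ x = (-1) ^ (d + ε) * (-1) ^ (d - rk J x) := by
        rw [← pow_add]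
        have hpar : x % 2 = (d + ε + (d - rk J x)) % 2 := by
          have h1 := hε x hx
          have h2 := hrk x hx
          omega
        rw [neg_one_pow_eq_pow_mod_two (n := x), neg_one_pow_eq_pow_mod_two (n := _ + _), hpar]
      have hs : (-1 : ℝ) ^ (d - rk J x) * (-1 : ℝ) ^ (d - rk J x) = 1 := by
        rw [← mul_pow]; simp
      have hs0 : (-1 : ℝ) ^ (d - rk J x) ≠ 0 := pow_ne_zero _ (by norm_num)
      rw [hpow]
      field_simp
    rw [Finset.sum_congr rfl hterm]
    ext k
    have h2 := hlag (k : ℕ) k.2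
    have h3 : (∑ x ∈ J, ((-1 : ℝ) ^ (d + ε) * (D x)⁻¹) • mom d (t x)) k =
        (-1 : ℝ) ^ (d + ε) * ∑ x ∈ J, (t x) ^ (k : ℕ) / D x := by
      simp only [WithLp.ofLp_sum, Finset.sum_apply, WithLp.ofLp_smul, Pi.smul_apply, smul_eq_mul,
        Finset.mul_sum]
      refine Finset.sum_congr rfl (fun x _ => ?_)
      rw [show (mom d (t x)).ofLp k = (t x) ^ (k : ℕ) from rfl]
      ring
    rw [h3, h2, mul_zero]
    rfl
  have key : ∀ (g : EuclideanSpace ℝ (Fin d) →ᵃ[ℝ] ℝ),
      (∑ x ∈ J, β x) * g 0 = ∑ x ∈ J, β x * g (pt d t x) := by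
    intro g
    have hg : ∀ y, g y = g.linear y + g 0 := by
      intro y
      have := g.map_vadd 0 y
      simpa using this
    have h1 : g.linear (∑ x ∈ J, β x • pt d t x) = 0 := by rw [hsum, map_zero]
    rw [map_sum] at h1
    simp only [map_smul, smul_eq_mul] at h1
    calc (∑ x ∈ J, β x) * g 0 = ∑ x ∈ J, β x * g.linear (pt d t x) + (∑ x ∈ J, β x) * g 0 := by
          rw [h1, zero_add]
      _ = ∑ x ∈ J, β x * g (pt d t x) := by
          rw [Finset.sum_mul, ← Finset.sum_add_distrib]
          refine Finset.sum_congr rfl (fun x _ => ?_)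
          rw [hg (pt d t x)]; ring
  have hW : 0 < ∑ x ∈ J, β x := Finset.sum_pos hβ (Finset.card_pos.mp (by omega))
  intro p hp
  obtain ⟨x0, hx0, rfl⟩ := Finset.mem_image.mp hp
  have h1 := key (c (pt d t x0))
  have h2 : ∑ x ∈ J, β x * c (pt d t x0) (pt d t x) = β x0 := by
    rw [Finset.sum_eq_single x0]
    · rw [hc1 _ hp, mul_one]
    · intro x hx hne
      rw [hc0 _ hp _ (Finset.mem_image_of_mem _ hx) (fun h => hne (hinjJ hx hx0 h.symm)), mul_zero]
    · intro h; exact absurd hx0 h
  rw [h2] at h1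
  have h3 := hβ x0 hx0
  rw [← h1] at h3
  exact (pos_iff_pos_of_mul_pos h3).mp hW

end Pool.Agent.H107.DW
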