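import Mathlib
import Pool.Agent.H107.DWSharpC

namespace Pool.Agent.H107.DW

open Finset

/-- Spreading map. -/
def hmap (ε : ℕ) (B : Finset ℕ) (x : ℕ) : ℕ := 2 * x - rk B x + ε

theorem rk_le (B : Finset ℕ) (x : ℕ) : rk B x ≤ x := by
  have h : B.filter (fun y => y < x) ⊆ Finset.range x := by
    intro y hy
    exact Finset.mem_range.mpr (Finset.mem_filter.mp hy).2
  simpa [rk] using Finset.card_le_card h

theorem rk_diff (B : Finset ℕ) {x y : ℕ} (_hxy : x < y) : rk B y ≤ rk B x + (y - x) := by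
  have h : B.filter (fun z => z < y) ⊆ B.filter (fun z => z < x) ∪ Finset.Ico x y := by
    intro z hz
    have hz' := Finset.mem_filter.mp hz
    by_cases hzx : z < x
    · exact Finset.mem_union_left _ (Finset.mem_filter.mpr ⟨hz'.1, hzx⟩)
    · exact Finset.mem_union_right _ (Finset.mem_Ico.mpr ⟨by omega, hz'.2⟩)
  have h1 := (Finset.card_le_card h).trans (Finset.card_union_le _ _)
  simpa [rk] using h1

theorem hmap_lt (ε : ℕ) (B : Finset ℕ) {x y : ℕ} (hxy : x < y) : hmap ε B x < hmap ε B y := by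
  have h1 := rk_diff B hxy
  have h2 := rk_le B x
  simp only [hmap]
  omega

theorem hmap_strictMono (ε : ℕ) (B : Finset ℕ) : StrictMono (hmap ε B) :=
  fun _ _ h => hmap_lt ε B h

theorem rk_image (ε : ℕ) (B : Finset ℕ) (x : ℕ) :
    rk (B.image (hmap ε B)) (hmap ε B x) = rk B x := by
  have h : (B.image (hmap ε B)).filter (fun z => z < hmap ε B x) =
      (B.filter (fun z => z < x)).image (hmap ε B) := by
    ext z
    simp only [Finset.mem_filter, Finset.mem_image]
    constructor
    · rintro ⟨⟨w, hw, rfl⟩, hlt⟩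
      exact ⟨w, ⟨hw, (hmap_strictMono ε B).lt_iff_lt.mp hlt⟩, rfl⟩
    · rintro ⟨w, ⟨hw, hlt⟩, rfl⟩
      exact ⟨⟨w, hw, rfl⟩, hmap_lt ε B hlt⟩
  rw [rk, h, Finset.card_image_of_injective _ (hmap_strictMono ε B).injective, rk]

theorem alt_image (ε : ℕ) (B : Finset ℕ) : Alt ε (B.image (hmap ε B)) := by
  intro z hz
  obtain ⟨x, hx, rfl⟩ := Finset.mem_image.mp hz
  rw [rk_image]
  have := rk_le B x
  simp only [hmap]
  omega

theorem image_injective (ε : ℕ) {B B' : Finset ℕ}
    (h : B.image (hmap ε B) = B'.image (hmap ε B')) : B = B' := by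
  have key : ∀ B : Finset ℕ, (B.image (hmap ε B)).image
      (fun y => (y + rk (B.image (hmap ε B)) y - ε) / 2) = B := by
    intro B
    ext x
    simp only [Finset.mem_image]
    constructor
    · rintro ⟨y, ⟨w, hw, rfl⟩, hy⟩
      rw [rk_image] at hy
      have := rk_le B w
      have hw' : (hmap ε B w + rk B w - ε) / 2 = w := by simp only [hmap]; omega
      rw [hw'] at hy
      rw [← hy]; exact hw
    · intro hx
      refine ⟨_, ⟨x, hx, rfl⟩, ?_⟩
      rw [rk_image]
      have := rk_le B x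
      simp only [hmap]
      omega
  rw [← key B, ← key B', h]

theorem hmap_range {d m n ε : ℕ} (hm : 2 * m ≤ n + d + 1 - ε) (_hε : ε ≤ 1) (hd : 1 ≤ d)
    {B : Finset ℕ} (hB : B ⊆ Finset.range m) (hBc : B.card = d + 1) {x : ℕ} (hx : x ∈ B) :
    hmap ε B x < n := by
  have h1 : (B.filter (fun y => ¬ y < x)) ⊆ Finset.Ico x m := by
    intro y hy
    have := Finset.mem_filter.mp hy
    have h2 := Finset.mem_range.mp (hB this.1)
    exact Finset.mem_Ico.mpr ⟨by omega, h2⟩
  have h2 := Finset.card_le_card h1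
  have h3 := Finset.card_filter_add_card_filter_not (s := B) (fun y => y < x)
  rw [Nat.card_Ico] at h2
  have hxm := Finset.mem_range.mp (hB hx)
  have hr := rk_le B x
  have hrd : rk B x ≤ d := by
    have h4 : B.filter (fun y => y < x) ⊆ B.erase x := by
      intro y hy
      have := Finset.mem_filter.mp hy
      exact Finset.mem_erase.mpr ⟨by omega, this.1⟩
    have h5 := Finset.card_le_card h4
    rw [Finset.card_erase_of_mem hx, hBc] at h5
    simp only [rk]; omega
  simp only [rk] at hr hrd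
  simp only [hmap, rk]
  omega

/-- The family of index sets of alternating parity is large. -/
theorem count_alt {d : ℕ} (hd : 1 ≤ d) (n : ℕ) :
    ∃ 𝒥 : Finset (Finset ℕ), (∀ J ∈ 𝒥, J ⊆ Finset.range n ∧ J.card = d + 1 ∧ (Alt 0 J ∨ Alt 1 J)) ∧
      ((n + d + 1) / 2).choose (d + 1) + ((n + d) / 2).choose (d + 1) ≤ 𝒥.card := by
  classical
  let 𝒥 : ℕ → Finset (Finset ℕ) := fun ε =>
    ((Finset.range ((n + d + 1 - ε) / 2)).powersetCard (d + 1)).image (fun B => B.image (hmap ε B))
  have hcard : ∀ ε, (𝒥 ε).card = ((n + d + 1 - ε) / 2).choose (d + 1) := by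
    intro ε
    simp only [𝒥]
    rw [Finset.card_image_of_injOn, Finset.card_powersetCard, Finset.card_range]
    intro B _ B' _ h
    exact image_injective ε h
  have hprop : ∀ ε ≤ 1, ∀ J ∈ 𝒥 ε, J ⊆ Finset.range n ∧ J.card = d + 1 ∧ Alt ε J := by
    intro ε hε J hJ
    simp only [𝒥, Finset.mem_image, Finset.mem_powersetCard] at hJ
    obtain ⟨B, ⟨hB, hBc⟩, rfl⟩ := hJ
    refine ⟨?_, ?_, alt_image ε B⟩
    · intro z hz
      obtain ⟨x, hx, rfl⟩ := Finset.mem_image.mp hz
      exact Finset.mem_range.mpr (hmap_range (by omega) hε hd hB hBc hx)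
    · rw [Finset.card_image_of_injective _ (hmap_strictMono ε B).injective, hBc]
  have hdisj : Disjoint (𝒥 0) (𝒥 1) := by
    rw [Finset.disjoint_left]
    intro J h0 h1
    obtain ⟨-, hc, ha⟩ := hprop 0 (by omega) J h0
    obtain ⟨-, -, hb⟩ := hprop 1 le_rfl J h1
    obtain ⟨x, hx⟩ := Finset.card_pos.mp (by omega : 0 < J.card)
    have := ha x hx
    have := hb x hx
    omega
  refine ⟨𝒥 0 ∪ 𝒥 1, ?_, ?_⟩
  · intro J hJ
    rcases Finset.mem_union.mp hJ with h | h
    · obtain ⟨h1, h2, h3⟩ := hprop 0 (by omega) J h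
      exact ⟨h1, h2, Or.inl h3⟩
    · obtain ⟨h1, h2, h3⟩ := hprop 1 le_rfl J h
      exact ⟨h1, h2, Or.inr h3⟩
  · rw [Finset.card_union_of_disjoint hdisj, hcard, hcard]
    have e1 : (n + d + 1 - 0) / 2 = (n + d + 1) / 2 := by omega
    have e2 : (n + d + 1 - 1) / 2 = (n + d) / 2 := by omega
    rw [e1, e2]

/-- **Sharpness on the unit sphere.** -/
theorem sharp {d : ℕ} (hd : 2 ≤ d) (n : ℕ) :
    ∃ P : Finset (EuclideanSpace ℝ (Fin d)), P.card = n ∧ GeneralPosition P ∧ (∀ p ∈ P, ‖p‖ = 1) ∧
      ∃ F : Finset (Finset (EuclideanSpace ℝ (Fin d))), (∀ S ∈ F, S ⊆ P ∧ S.card = d + 1 ∧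
        (0 : EuclideanSpace ℝ (Fin d)) ∈
          interior (convexHull ℝ (S : Set (EuclideanSpace ℝ (Fin d))))) ∧
      ((n + d + 1) / 2).choose (d + 1) + ((n + d) / 2).choose (d + 1) ≤ F.card := by
  classical
  obtain ⟨t, ht, hAI⟩ := exists_params hd n
  have hd1 : 1 ≤ d := by omega
  have hinj : Set.InjOn (pt d t) (Finset.range n : Set ℕ) := by
    intro i hi j hj hij
    by_contra hne
    have hsub : ({i, j} : Finset ℕ) ⊆ Finset.range n := by
      intro k hk
      rcases Finset.mem_insert.mp hk with h | h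
      · rw [h]; exact hi
      · rw [Finset.mem_singleton.mp h]; exact hj
    have h := (hAI {i, j} hsub (by rw [Finset.card_pair hne]; omega)).injective
    have h2 := h (a₁ := ⟨i, by simp⟩) (a₂ := ⟨j, by simp⟩) hij
    exact hne (congrArg Subtype.val h2)
  refine ⟨(Finset.range n).image (pt d t), ?_, ?_, ?_, ?_⟩
  · rw [Finset.card_image_of_injOn hinj, Finset.card_range]
  · intro S hS hSc
    -- preimage index set
    let J : Finset ℕ := (Finset.range n).filter (fun i => pt d t i ∈ S)
    have hJS : J.image (pt d t) = S := by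
      ext p
      simp only [J, Finset.mem_image, Finset.mem_filter]
      constructor
      · rintro ⟨i, ⟨-, h⟩, rfl⟩; exact h
      · intro hp
        obtain ⟨i, hi, rfl⟩ := Finset.mem_image.mp (hS hp)
        exact ⟨i, ⟨hi, hp⟩, rfl⟩
    have hJsub : J ⊆ Finset.range n := Finset.filter_subset _ _
    have hJc : J.card = d + 1 := by
      rw [← hSc, ← hJS, Finset.card_image_of_injOn (hinj.mono (by exact_mod_cast hJsub))]
    have h := (hAI J hJsub hJc.le).range
    have hr : Set.range (fun i : J => pt d t i) = (S : Set _) := by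
      rw [← hJS]
      ext y
      simp
    rw [hr] at h
    exact h
  · intro p hp
    obtain ⟨i, -, rfl⟩ := Finset.mem_image.mp hp
    exact norm_pt hd1 t i
  · obtain ⟨𝒥, h𝒥, hcard⟩ := count_alt hd1 n
    refine ⟨𝒥.image (fun J => J.image (pt d t)), ?_, ?_⟩
    · intro S hS
      obtain ⟨J, hJ, rfl⟩ := Finset.mem_image.mp hS
      obtain ⟨h1, h2, h3⟩ := h𝒥 J hJ
      refine ⟨Finset.image_subset_image h1, ?_, ?_⟩
      · rw [Finset.card_image_of_injOn (hinj.mono (by exact_mod_cast h1)), h2]
      · rcases h3 with h3 | h3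
        · exact zero_mem_interior n t ht hAI hd1 hinj J h1 h2 0 h3
        · exact zero_mem_interior n t ht hAI hd1 hinj J h1 h2 1 h3
    · rw [Finset.card_image_of_injOn]
      · exact hcard
      · intro J hJ J' hJ' h
        have hJ1 := (h𝒥 J hJ).1
        have hJ2 := (h𝒥 J' hJ').1
        ext i
        constructor
        · intro hi
          have : pt d t i ∈ J'.image (pt d t) := by
            rw [← show J.image (pt d t) = J'.image (pt d t) from h]
            exact Finset.mem_image_of_mem _ hi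
          obtain ⟨k, hk, hki⟩ := Finset.mem_image.mp this
          rw [← hinj (hJ2 hk) (hJ1 hi) hki]; exact hk
        · intro hi
          have : pt d t i ∈ J.image (pt d t) := by
            rw [show J.image (pt d t) = J'.image (pt d t) from h]
            exact Finset.mem_image_of_mem _ hi
          obtain ⟨k, hk, hki⟩ := Finset.mem_image.mp this
          rw [← hinj (hJ1 hk) (hJ2 hi) hki]; exact hk

end Pool.Agent.H107.DW
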